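import Pool.Agent.Helper94.YF.St

/-! # Project YF (MP_2b6189_al): module CA -/

set_option autoImplicit false

namespace Pool.Agent.Helper33.YF

open Pool.Agent.Helper94.YF

private lemma sum3 {I : Type} [Fintype I] [DecidableEq I] (f : I → ℤ) (a b c : I)
    (hab : a ≠ b) (hac : a ≠ c) (hbc : b ≠ c) (h : ∀ k, k ≠ a → k ≠ b → k ≠ c → f k = 0) :
    ∑ k, f k = f a + f b + f c := by
  rw [← Finset.sum_subset (Finset.subset_univ ({a, b, c} : Finset I))]
  · rw [Finset.sum_insert (by simp [hab, hac]), Finset.sum_insert (by simp [hbc]),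
      Finset.sum_singleton]
    ring
  · intro x _ hx
    simp only [Finset.mem_insert, Finset.mem_singleton, not_or] at hx
    exact h x hx.1 hx.2.1 hx.2.2

private lemma sum4 {I : Type} [Fintype I] [DecidableEq I] (f : I → ℤ) (a b c z : I)
    (hab : a ≠ b) (hac : a ≠ c) (hbc : b ≠ c) (hza : z ≠ a) (hzb : z ≠ b) (hzc : z ≠ c)
    (h : ∀ k, k ≠ a → k ≠ b → k ≠ c → k ≠ z → f k = 0) :
    ∑ k, f k = f a + f b + f c + f z := by
  rw [← Finset.sum_subset (Finset.subset_univ ({z, a, b, c} : Finset I))]
  · rw [Finset.sum_insert (by simp [hza, hzb, hzc]), Finset.sum_insert (by simp [hab, hac]),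
      Finset.sum_insert (by simp [hbc]), Finset.sum_singleton]
    ring
  · intro x _ hx
    simp only [Finset.mem_insert, Finset.mem_singleton, not_or] at hx
    exact h x hx.2.1 hx.2.2.1 hx.2.2.2 hx.1

private lemma sq_one {I : Type} [DecidableEq I] (S : Finset I) (g : I → ℤ)
    (h : ∑ k ∈ S, g k * g k = 1) : ∃ p ∈ S, g p * g p = 1 ∧ ∀ k ∈ S, k ≠ p → g k = 0 := by
  have hex : ∃ p ∈ S, g p ≠ 0 := by
    by_contra hc
    push Not at hc
    rw [Finset.sum_eq_zero (fun k hk => by rw [hc k hk]; ring)] at h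
    exact absurd h (by norm_num)
  obtain ⟨p, hp, hp0⟩ := hex
  have hs := Finset.add_sum_erase S (fun k => g k * g k) hp
  have hge : 0 ≤ ∑ k ∈ S.erase p, g k * g k := Finset.sum_nonneg (fun k _ => mul_self_nonneg _)
  have h1 : 0 < g p * g p := mul_self_pos.2 hp0
  have h2 : g p * g p = 1 := by omega
  have h3 : ∑ k ∈ S.erase p, g k * g k = 0 := by omega
  refine ⟨p, hp, h2, fun k hk hkp => ?_⟩
  have := (Finset.sum_eq_zero_iff_of_nonneg (fun k _ => mul_self_nonneg (g k))).1 h3 k
    (Finset.mem_erase.2 ⟨hkp, hk⟩)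
  exact mul_self_eq_zero.1 this

private lemma sq_two {I : Type} [DecidableEq I] (S : Finset I) (g : I → ℤ)
    (h : ∑ k ∈ S, g k * g k = 2) : ∃ p ∈ S, ∃ q ∈ S, p ≠ q ∧ g p * g p = 1 ∧ g q * g q = 1 ∧
      ∀ k ∈ S, k ≠ p → k ≠ q → g k = 0 := by
  have hex : ∃ p ∈ S, g p ≠ 0 := by
    by_contra hc
    push Not at hc
    rw [Finset.sum_eq_zero (fun k hk => by rw [hc k hk]; ring)] at h
    exact absurd h (by norm_num)
  obtain ⟨p, hp, hp0⟩ := hex
  have hs := Finset.add_sum_erase S (fun k => g k * g k) hp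
  have hge : 0 ≤ ∑ k ∈ S.erase p, g k * g k := Finset.sum_nonneg (fun k _ => mul_self_nonneg _)
  have h1 : 0 < g p * g p := mul_self_pos.2 hp0
  have h2 : g p * g p = 1 := by
    have hle : g p * g p ≤ 2 := by omega
    have : -1 ≤ g p ∧ g p ≤ 1 := ⟨by nlinarith, by nlinarith⟩
    obtain ⟨ha, hb⟩ := this
    interval_cases g p <;> omega
  have h3 : ∑ k ∈ S.erase p, g k * g k = 1 := by omega
  obtain ⟨q, hq, hq1, hq2⟩ := sq_one _ _ h3
  rw [Finset.mem_erase] at hq
  refine ⟨p, hp, q, hq.2, fun h => hq.1 h.symm, h2, hq1, fun k hk hkp hkq => ?_⟩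
  exact hq2 k (Finset.mem_erase.2 ⟨hkp, hk⟩) hkq

/-- The sum over `I` minus three points. -/
private lemma rest3 {I : Type} [Fintype I] [DecidableEq I] (f : I → ℤ) (a b c : I)
    (hab : a ≠ b) (hac : a ≠ c) (hbc : b ≠ c) :
    ∑ k, f k = f a + f b + f c + ∑ k ∈ (Finset.univ \ ({a, b, c} : Finset I)), f k := by
  rw [← Finset.sum_sdiff (Finset.subset_univ ({a, b, c} : Finset I)) (f := f)]
  rw [Finset.sum_insert (s := {b, c}) (by simp [hab, hac]),
    Finset.sum_insert (s := {c}) (by simp [hbc]), Finset.sum_singleton]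
  ring

private lemma cdvd {a b c : ℤ} (h : a ∣ b) (e : c = b) : a ∣ c := by rw [e]; exact h

/-- **YF MODULE CA.** -/
theorem hCA : Pool.Agent.Helper94.YF.StCA := by
  intro hHS hDIV I _ _ X hoo
  obtain ⟨h1, -, -⟩ := hHS I X
  obtain ⟨D1, D2⟩ := hDIV
  set B := X.B with hB
  set e := X.e with he
  set o := X.o with ho
  have eo : e o = 1 := X.e_o
  -- the rows over the plus part
  set P : I → I → ℤ := fun i k => if e k = 1 then B i k else 0 with hP
  have hPP : ∀ i j, ∑ k, P i k * P j k = (if i = j then 2 else 0) + e i * e j * B i j := by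
    intro i j
    rw [← h1 i j]
    refine Finset.sum_congr rfl (fun k _ => ?_)
    simp only [hP]
    split_ifs
    · rw [show B k j = B j k from X.symm k j]
    · ring
  have P1 : ∀ i k, e k = 1 → P i k = B i k := fun i k hk => by simp only [hP]; rw [if_pos hk]
  have P0 : ∀ i k, P i k ≠ 0 → e k = 1 := fun i k hk => by
    by_contra hc
    exact hk (by simp only [hP]; rw [if_neg hc])
  have hdiv : ∀ j, e j = 1 → (X.d j : ℤ) ∣ ∑ k, P j k * (X.d k : ℤ) := by
    intro j hj
    have h0 := X.divp j hj
    have h1 : ∑ k, P j k * (X.d k : ℤ) = ∑ k, if X.e k = 1 then X.B j k * (X.d k : ℤ) else 0 := by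
      refine Finset.sum_congr rfl (fun k _ => ?_)
      simp only [hP]
      split_ifs
      · rfl
      · ring
    rw [h1]
    exact h0
  have symm : ∀ i j, B i j = B j i := X.symm
  -- row `o`
  have hoo3 : ∑ k, P o k * P o k = 3 := by
    rw [hPP o o, if_pos rfl, eo, hoo]; norm_num
  have hPoo : P o o = 1 := by rw [P1 o o eo, hoo]
  have hE : ∑ k ∈ Finset.univ.erase o, P o k * P o k = 2 := by
    have := Finset.add_sum_erase Finset.univ (fun k => P o k * P o k) (Finset.mem_univ o)
    rw [hoo3, hPoo] at this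
    omega
  obtain ⟨p, hp, q, hq, hpq, hp1, hq1, hpq0⟩ := sq_two _ _ hE
  have hpo : p ≠ o := (Finset.mem_erase.1 hp).1
  have hqo : q ≠ o := (Finset.mem_erase.1 hq).1
  have hrow : ∀ k, k ≠ o → k ≠ p → k ≠ q → P o k = 0 := fun k h0 hp hq =>
    hpq0 k (Finset.mem_erase.2 ⟨h0, Finset.mem_univ k⟩) hp hq
  have ep : e p = 1 := P0 o p (fun h => by rw [h] at hp1; norm_num at hp1)
  have eq : e q = 1 := P0 o q (fun h => by rw [h] at hq1; norm_num at hq1)
  rw [P1 o p ep] at hp1
  rw [P1 o q eq] at hq1
  have pm : ∀ x : ℤ, x * x = 1 → x = 1 ∨ x = -1 := fun x hx => by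
    exact mul_self_eq_one_iff.1 hx
  have hp1' := pm _ hp1
  have hq1' := pm _ hq1
  have hop0 : B o p ≠ 0 := fun h => by rw [h] at hp1; norm_num at hp1
  have hoq0 : B o q ≠ 0 := fun h => by rw [h] at hq1; norm_num at hq1
  have dpo : Odd (X.d p) := X.odd o p hp1'
  have dqo : Odd (X.d q) := X.odd o q hq1'
  have hrs : ∀ j, ∑ k, P o k * P j k = B o j + B o p * B j p + B o q * B j q := by
    intro j
    rw [sum3 (fun k => P o k * P j k) o p q hpo.symm hqo.symm hpq
      (fun k h0 hp hq => by rw [hrow k h0 hp hq]; ring)]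
    rw [hPoo, P1 j o eo, P1 o p ep, P1 j p ep, P1 o q eq, P1 j q eq, symm j o]
    ring
  have hopE : B o p * B p p + B o q * B p q = 0 := by
    have := hrs p
    rw [hPP o p, if_neg hpo.symm, eo, ep] at this
    linarith
  have hoqE : B o p * B p q + B o q * B q q = 0 := by
    have := hrs q
    rw [hPP o q, if_neg hqo.symm, eo, eq, symm q p] at this
    linarith
  -- duals
  have hdual : ∀ x, e x = 1 → B o x ≠ 0 → x ≠ o → (X.st x = p ∨ X.st x = q) := by
    intro x hx hx0 hxo
    have e1 : e (X.st x) = 1 := by rw [he, X.e_st]; exact hx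
    have b1 : B o (X.st x) = B o x := by
      have := X.B_st o x
      rw [ho, X.st_o] at this
      exact this
    have n1 : X.st x ≠ o := fun h => hxo (by
      have := congrArg X.st h
      rw [X.st_st, ho, X.st_o] at this
      exact this)
    by_contra hc
    push Not at hc
    have := hrow _ n1 hc.1 hc.2
    rw [P1 o _ e1, b1] at this
    exact hx0 this
  have stp : X.st p = p := by
    rcases hdual p ep hop0 hpo with h | h
    · exact h
    · exfalso
      have b1 : B o q = B o p := by
        have := X.B_st o p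
        rw [ho, X.st_o, h] at this
        exact this
      have k1 : X.kap q = X.kap p := by rw [← h, X.kap_st]
      have := X.kapB
      rw [sum3 (fun k => X.B X.o k * (X.kap k : ℤ)) o p q hpo.symm hqo.symm hpq] at this
      · rw [k1] at this
        change B o o * (X.kap X.o : ℤ) + B o p * _ + B o q * _ = 2 at this
        rw [b1, hoo, X.kap_o] at this
        push_cast at this
        omega
      · intro k h0 hp hq
        by_cases hk : X.kap k = 0
        · rw [hk]; simp
        · have := hrow k h0 hp hq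
          rw [P1 o k (X.kap_e k hk)] at this
          change B o k * _ = 0
          rw [this]; ring
  have stq : X.st q = q := by
    rcases hdual q eq hoq0 hqo with h | h
    · exfalso
      have := congrArg X.st h
      rw [X.st_st, stp] at this
      exact hpq this.symm
    · exact h
  have good_p : X.d p = 1 → X.Good := fun h => ⟨p, hpo, ep, h, stp, Or.inl hop0⟩
  have good_q : X.d q = 1 → X.Good := fun h => ⟨q, hqo, eq, h, stq, Or.inl hoq0⟩
  have dpp : (0 : ℤ) < X.d p := by exact_mod_cast X.d_pos p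
  have dqp : (0 : ℤ) < X.d q := by exact_mod_cast X.d_pos q
  have dpo' : Odd (X.d p : ℤ) := by exact_mod_cast dpo
  have dqo' : Odd (X.d q : ℤ) := by exact_mod_cast dqo
  -- the value of `B p p`
  set t := B p p with ht
  have hpqv : B p q = -(B o p * B o q) * t := by
    have : B o q * (B o p * t + B o q * B p q) = 0 := by rw [hopE]; ring
    linear_combination this - B p q * hq1
  have hqq : B q q = t := by
    have : B o q * (B o p * B p q + B o q * B q q) = 0 := by rw [hoqE]; ring
    rw [hpqv] at this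
    linear_combination this - B q q * hq1 + (t * B o q * B o q) * hp1 + t * hq1
  have hpq2 : B p q * B p q = t * t := by
    rw [hpqv]
    linear_combination (t * t * B o q * B o q) * hp1 + t * t * hq1
  have restp : ∑ k ∈ (Finset.univ \ ({o, p, q} : Finset I)), P p k * P p k = 1 + t - 2 * (t * t) := by
    have := rest3 (fun k => P p k * P p k) o p q hpo.symm hqo.symm hpq
    rw [hPP p p, if_pos rfl, ep] at this
    rw [P1 p o eo, P1 p p ep, P1 p q eq, symm p o, hp1, hpq2, ← ht] at this
    linarith
  have restq : ∑ k ∈ (Finset.univ \ ({o, p, q} : Finset I)), P q k * P q k = 1 + t - 2 * (t * t) := by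
    have := rest3 (fun k => P q k * P q k) o p q hpo.symm hqo.symm hpq
    rw [hPP q q, if_pos rfl, eq] at this
    rw [P1 q o eo, P1 q p ep, P1 q q eq, symm q o, symm q p, hq1, hpq2, hqq] at this
    linarith
  have hmem : ∀ k, k ≠ o → k ≠ p → k ≠ q → k ∈ (Finset.univ \ ({o, p, q} : Finset I)) := by
    intro k h0 hp hq
    simp [h0, hp, hq]
  have ht01 : t = 0 ∨ t = 1 := by
    have h0 : 0 ≤ 1 + t - 2 * (t * t) := by
      rw [← restp]; exact Finset.sum_nonneg (fun k _ => mul_self_nonneg _)
    have : -1 < t ∧ t ≤ 1 := ⟨by nlinarith, by nlinarith⟩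
    omega
  rcases ht01 with t0 | t1
  · -- case `t = 0`
    rw [t0] at restp restq hqq hpqv
    rw [show (1 : ℤ) + 0 - 2 * (0 * 0) = 1 from by norm_num] at restp restq
    rw [mul_zero] at hpqv
    obtain ⟨z, hz, hz1, hz0⟩ := sq_one _ _ restp
    simp only [Finset.mem_sdiff, Finset.mem_univ, true_and, Finset.mem_insert,
      Finset.mem_singleton, not_or] at hz
    obtain ⟨zo, zp, zq⟩ := hz
    have ez : e z = 1 := P0 p z (fun h => by rw [h] at hz1; norm_num at hz1)
    rw [P1 p z ez] at hz1
    have hz1' := pm _ hz1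
    have hpz0 : B p z ≠ 0 := fun h => by rw [h] at hz1; norm_num at hz1
    have dzo : Odd (X.d z) := X.odd p z hz1'
    have hoz : B o z = 0 := by
      have := hrow z zo zp zq
      rwa [P1 o z ez] at this
    have rowp : ∀ k, k ≠ o → k ≠ p → k ≠ q → k ≠ z → P p k = 0 := fun k h0 hp hq hz =>
      hz0 k (hmem k h0 hp hq) hz
    have hqz : B q z = -(B o p * B o q) * B p z := by
      have := hrs z
      rw [hPP o z, if_neg (Ne.symm zo), eo, ez, hoz, symm z p, symm z q] at this
      have h2 : B o q * (B o p * B p z + B o q * B q z) = 0 := by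
        have : B o p * B p z + B o q * B q z = 0 := by linarith
        rw [this]; ring
      linear_combination h2 - B q z * hq1
    have hqz1 : B q z * B q z = 1 := by
      rw [hqz]
      linear_combination (B o q * B o q * (B p z * B p z)) * hp1 + (B p z * B p z) * hq1 + hz1
    have rowq : ∀ k, k ≠ o → k ≠ p → k ≠ q → k ≠ z → P q k = 0 := by
      intro k h0 hp hq hzk
      obtain ⟨z', hz', hz1q, hz0'⟩ := sq_one _ _ restq
      have hzz : z = z' := by
        by_contra hne
        have := hz0' z (hmem z zo zp zq) hne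
        rw [P1 q z ez] at this
        rw [this] at hqz1
        norm_num at hqz1
      rw [← hzz] at hz0'
      exact hz0' k (hmem k h0 hp hq) hzk
    have hzz : B z z = 1 := by
      have h2 := hPP p z
      rw [if_neg (Ne.symm zp), ep, ez] at h2
      rw [sum4 (fun k => P p k * P z k) o p q z hpo.symm hqo.symm hpq zo zp zq
        (fun k h0 hp hq hz => by rw [rowp k h0 hp hq hz]; ring)] at h2
      rw [P1 p o eo, P1 z o eo, P1 p p ep, P1 z p ep, P1 p q eq, P1 z q eq, P1 p z ez, P1 z z ez,
        symm z o, hoz, ← ht, t0, hpqv] at h2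
      have h3 : B p z * (B p z * B z z) = B p z * B p z := by
        congr 1
        linarith
      linear_combination h3 - B z z * hz1 + hz1
    have rowz : ∀ k, k ≠ o → k ≠ p → k ≠ q → k ≠ z → P z k = 0 := by
      have h2 := rest3 (fun k => P z k * P z k) o p q hpo.symm hqo.symm hpq
      rw [hPP z z, if_pos rfl, ez, hzz] at h2
      rw [P1 z o eo, P1 z p ep, P1 z q eq, symm z o, symm z p, symm z q, hoz, hz1, hqz1] at h2
      have h3 : ∑ k ∈ (Finset.univ \ ({o, p, q} : Finset I)), P z k * P z k = 1 := by linarith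
      obtain ⟨z', hz', -, hz0'⟩ := sq_one _ _ h3
      have hzz' : z = z' := by
        by_contra hne
        have := hz0' z (hmem z zo zp zq) hne
        rw [P1 z z ez, hzz] at this
        norm_num at this
      rw [← hzz'] at hz0'
      exact fun k h0 hp hq hzk => hz0' k (hmem k h0 hp hq) hzk
    have do1 : (X.d o : ℤ) = 1 := by exact_mod_cast X.d_o
    have dvp : (X.d p : ℤ) ∣ B o p + B p z * X.d z := by
      have := hdiv p ep
      rw [sum4 (fun k => P p k * (X.d k : ℤ)) o p q z hpo.symm hqo.symm hpq zo zp zq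
        (fun k h0 hp hq hz => by rw [rowp k h0 hp hq hz]; ring)] at this
      rw [P1 p o eo, P1 p p ep, P1 p q eq, P1 p z ez, symm p o, ← ht, t0, hpqv, do1] at this
      exact cdvd this (by ring)
    have dvq : (X.d q : ℤ) ∣ B o q + B q z * X.d z := by
      have := hdiv q eq
      rw [sum4 (fun k => P q k * (X.d k : ℤ)) o p q z hpo.symm hqo.symm hpq zo zp zq
        (fun k h0 hp hq hz => by rw [rowq k h0 hp hq hz]; ring)] at this
      rw [P1 q o eo, P1 q p ep, P1 q q eq, P1 q z ez, symm q o, symm q p, hqq, hpqv, do1] at this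
      exact cdvd this (by ring)
    have dvz : (X.d z : ℤ) ∣ B p z * X.d p + B q z * X.d q + X.d z := by
      have := hdiv z ez
      rw [sum4 (fun k => P z k * (X.d k : ℤ)) o p q z hpo.symm hqo.symm hpq zo zp zq
        (fun k h0 hp hq hz => by rw [rowz k h0 hp hq hz]; ring)] at this
      rw [P1 z o eo, P1 z p ep, P1 z q eq, P1 z z ez, symm z o, symm z p, symm z q, hoz, hzz] at this
      exact cdvd this (by ring)
    have dzp : (0 : ℤ) < X.d z := by exact_mod_cast X.d_pos z
    have dzo' : Odd (X.d z : ℤ) := by exact_mod_cast dzo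
    have hw : B o p * B p z * (X.d z : ℤ) = X.d z ∨ B o p * B p z * (X.d z : ℤ) = -X.d z := by
      rcases hp1' with h | h <;> rcases hz1' with h' | h' <;> rw [h, h'] <;> simp
    have hee : B o p * B o q = 1 ∨ B o p * B o q = -1 := by
      rcases hp1' with h | h <;> rcases hq1' with h' | h' <;> rw [h, h'] <;> simp
    have a1 : (X.d p : ℤ) ∣ 1 + B o p * B p z * (X.d z : ℤ) := by
      have := Dvd.dvd.mul_left dvp (B o p)
      exact cdvd this (by linear_combination -hp1)
    have a2 : (X.d q : ℤ) ∣ 1 - B o p * B p z * (X.d z : ℤ) := by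
      have := Dvd.dvd.mul_left dvq (B o q)
      exact cdvd this (by rw [hqz]; linear_combination (B o p * B p z * (X.d z : ℤ) - 1) * hq1)
    have a3 : (X.d z : ℤ) ∣ (X.d p : ℤ) - B o p * B o q * (X.d q : ℤ) := by
      have h5 : (X.d z : ℤ) ∣ B p z * X.d p + B q z * X.d q := (dvd_add_left (dvd_refl _)).1 dvz
      have := Dvd.dvd.mul_left h5 (B p z)
      exact cdvd this (by rw [hqz]; linear_combination (B o p * B o q * (X.d q : ℤ) - X.d p) * hz1)
    rcases D2 _ _ _ _ _ dpp dqp dzp dpo' dqo' dzo' hw hee a1 a2 a3 with h | h | h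
    · exact good_p (by exact_mod_cast h)
    · exact good_q (by exact_mod_cast h)
    · refine ⟨z, zo, ez, by exact_mod_cast h, ?_, Or.inr ⟨p, hop0, hpz0⟩⟩
      have e1 : e (X.st z) = 1 := by rw [he, X.e_st]; exact ez
      have b1 : B p (X.st z) = B p z := by
        have := X.B_st p z
        rw [stp] at this
        exact this
      by_contra hc
      have n0 : X.st z ≠ o := fun h => zo (by
        have := congrArg X.st h
        rw [X.st_st, ho, X.st_o] at this
        exact this)
      have n1 : X.st z ≠ p := fun h => zp (by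
        have := congrArg X.st h
        rw [X.st_st, stp] at this
        exact this)
      have n2 : X.st z ≠ q := fun h => zq (by
        have := congrArg X.st h
        rw [X.st_st, stq] at this
        exact this)
      have := rowp _ n0 n1 n2 hc
      rw [P1 p _ e1, b1] at this
      exact hpz0 this
  · -- case `t = 1`
    rw [t1] at restp restq hqq hpqv
    rw [show (1 : ℤ) + 1 - 2 * (1 * 1) = 0 from by norm_num] at restp restq
    rw [mul_one] at hpqv
    have z0 : ∀ j, ∑ k ∈ (Finset.univ \ ({o, p, q} : Finset I)), P j k * P j k = 0 →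
        ∀ k, k ≠ o → k ≠ p → k ≠ q → P j k = 0 := by
      intro j hj k h0 hp hq
      have := (Finset.sum_eq_zero_iff_of_nonneg (fun k _ => mul_self_nonneg (P j k))).1 hj k
        (hmem k h0 hp hq)
      exact mul_self_eq_zero.1 this
    have rowp := z0 p restp
    have rowq := z0 q restq
    have do1 : (X.d o : ℤ) = 1 := by exact_mod_cast X.d_o
    have dvp : (X.d p : ℤ) ∣ B o p + B p q * X.d q + X.d p := by
      have := hdiv p ep
      rw [sum3 (fun k => P p k * (X.d k : ℤ)) o p q hpo.symm hqo.symm hpq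
        (fun k h0 hp hq => by rw [rowp k h0 hp hq]; ring)] at this
      rw [P1 p o eo, P1 p p ep, P1 p q eq, symm p o, ← ht, t1, do1] at this
      exact cdvd this (by ring)
    have dvq : (X.d q : ℤ) ∣ B o q + B p q * X.d p + X.d q := by
      have := hdiv q eq
      rw [sum3 (fun k => P q k * (X.d k : ℤ)) o p q hpo.symm hqo.symm hpq
        (fun k h0 hp hq => by rw [rowq k h0 hp hq]; ring)] at this
      rw [P1 q o eo, P1 q p ep, P1 q q eq, symm q o, symm q p, hqq, do1] at this
      exact cdvd this (by ring)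
    have a1 : (X.d p : ℤ) ∣ 1 + (-(B o q)) * (X.d q : ℤ) := by
      have h5 : (X.d p : ℤ) ∣ B o p + B p q * X.d q := (dvd_add_left (dvd_refl _)).1 dvp
      have := Dvd.dvd.mul_left h5 (B o p)
      exact cdvd this (by rw [hpqv]; linear_combination (B o q * (X.d q : ℤ) - 1) * hp1)
    have a2 : (X.d q : ℤ) ∣ 1 + (-(B o p)) * (X.d p : ℤ) := by
      have h5 : (X.d q : ℤ) ∣ B o q + B p q * X.d p := (dvd_add_left (dvd_refl _)).1 dvq
      have := Dvd.dvd.mul_left h5 (B o q)
      exact cdvd this (by rw [hpqv]; linear_combination (B o p * (X.d p : ℤ) - 1) * hq1)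
    have f1 : -(B o q) = 1 ∨ -(B o q) = -1 := by
      rcases hq1' with h | h <;> rw [h] <;> simp
    have f2 : -(B o p) = 1 ∨ -(B o p) = -1 := by
      rcases hp1' with h | h <;> rw [h] <;> simp
    rcases D1 _ _ _ _ dpp dqp dpo' dqo' f1 f2 a1 a2 with h | h
    · exact good_p (by exact_mod_cast h)
    · exact good_q (by exact_mod_cast h)

end Pool.Agent.Helper33.YF
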